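import Pool.Agent.H472R3.NF.Mult

/-!
# One-sided power bounds for the products of Birch and Swinnerton-Dyer

Let `E : y² = x³ + a x + b` be an elliptic curve over a number field `K`, with integral coefficients,
and `EP(x)` the product of `#E(k_v) / N v` over the places `v` with `N v ≤ x` not dividing
`2 (4 a³ + 27 b²)`. Let `0 ≤ δ ≤ 1/2` and let `F` be equal to the Euler product of `L(E, s)` over these
`v` for `Re s > 3/2` and meromorphic at the real points greater than `1 + δ` (nothing is assumed off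
the real axis). Suppose that the Euler product has no holomorphic continuation without zeros to
`Re s > 1 + δ`. Then, for every `C`:

1. if `F` has no real pole greater than `1 + δ`, then `log EP(x) > C x ^ δ` for arbitrarily large `x`;
2. if `F` has no real zero greater than `1 + δ`, then `log EP(x) < -C x ^ δ` for arbitrarily large `x`.
-/

set_option autoImplicit false

open Filter NumberField

namespace Pool.Agent.Results.MP_7ed9c3_nt.OneSidedSize

open Pool.Agent.H438R3.BSD.NF (EP)
open Pool.Agent.H472R3.NF (ZeroFreeAt IsProd)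

/-- See the introduction. -/
theorem result (K : Type) [Field K] [NumberField K] (a b : 𝓞 K)
    (_hab : 4 * a ^ 3 + 27 * b ^ 2 ≠ 0) (δ : ℝ) (hδ : 0 ≤ δ) (hδ2 : δ ≤ 1 / 2)
    (F : ℂ → ℂ) (hL : ∀ s : ℂ, 3 / 2 < s.re → IsProd a b s (F s))
    (hF : ∀ σ : ℝ, 1 + δ < σ → MeromorphicAt F (σ : ℂ))
    (hZ : ¬ ZeroFreeAt a b δ) (C : ℝ) :
    ((∀ σ : ℝ, 1 + δ < σ → 0 ≤ meromorphicOrderAt F σ) →
      ∃ᶠ x : ℕ in atTop, C * (x : ℝ) ^ δ < Real.log (EP a b x)) ∧
    ((∀ σ : ℝ, 1 + δ < σ → meromorphicOrderAt F σ ≤ 0) →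
      ∃ᶠ x : ℕ in atTop, Real.log (EP a b x) < -(C * (x : ℝ) ^ δ)) :=
  Pool.Agent.H472R3.NF.one_sided_main a b F hL δ hδ hδ2 hF hZ C

end Pool.Agent.Results.MP_7ed9c3_nt.OneSidedSize
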