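import Pool.Agent.H472R3.NF.Mult

/-!
# The size of the products of Birch and Swinnerton-Dyer and the continuation of `L(E, s)`

Let `E : y² = x³ + a x + b` be any elliptic curve over any number field `K`, with integral
coefficients, and `EP(x)` the product of `#E(k_v) / N v` over the places `v` with `N v ≤ x` not
dividing `2 (4 a³ + 27 b²)`. Let `0 ≤ δ ≤ 1/2`. If the Euler product of `L(E, s)` (over these `v`) has
no holomorphic continuation without zeros to the half plane `Re s > 1 + δ`, then
`|log EP(x)| > C x ^ δ` for arbitrarily large `x`, for every `C`. Nothing is assumed on `L(E, s)`.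

In other words: `log EP(x) = O(x ^ δ)` implies that `L(E, s)` extends holomorphically, without zeros,
to `Re s > 1 + δ`.
-/

set_option autoImplicit false

open Filter NumberField

namespace Pool.Agent.Results.MP_7ed9c3_nt.SizeOfProducts

open Pool.Agent.H438R3.BSD.NF (EP)
open Pool.Agent.H472R3.NF (ZeroFreeAt)

/-- See the introduction. -/
theorem result (K : Type) [Field K] [NumberField K] (a b : 𝓞 K)
    (_hab : 4 * a ^ 3 + 27 * b ^ 2 ≠ 0) (δ : ℝ) (hδ : 0 ≤ δ) (hδ2 : δ ≤ 1 / 2)
    (hZ : ¬ ZeroFreeAt a b δ) (C : ℝ) :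
    ∃ᶠ x : ℕ in atTop, C * (x : ℝ) ^ δ < |Real.log (EP a b x)| :=
  Pool.Agent.H472R3.NF.two_sided_final a b δ hδ hδ2 hZ C

end Pool.Agent.Results.MP_7ed9c3_nt.SizeOfProducts
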